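import Pool.Agent.Helper22.NonLlpoMain

set_option autoImplicit false

namespace Pool.Agent.Results.MP_743c94_lc.NonLlpoBelowRT22

/-! ## Definitions used in the statement -/

/-- Cantor space, as a subset of Baire space `ℕ → ℕ`. -/
def Cantor : Set (ℕ → ℕ) := {p | ∀ n, p n = 0 ∨ p n = 1}

/-- A problem: a partial multivalued function on Cantor space, with domain `dom` and set of
values `sol p` at `p ∈ dom`. -/
structure Problem where
  dom : Set (ℕ → ℕ)
  sol : (ℕ → ℕ) → Set (ℕ → ℕ)
  dom_subset : dom ⊆ Cantor
  sol_subset : ∀ p ∈ dom, sol p ⊆ Cantor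

/-- The finite sequence of the first `k` values of `p`. -/
def ini (p : ℕ → ℕ) (k : ℕ) : List ℕ := (List.range k).map p

/-- A partial map `F` on Baire space is computable if there is a partial recursive function `φ`
such that, for every `p` in the domain of `F` and every `n`, the value `F(p)(n)` is produced by `φ`
from `n` and some finite initial segment of `p`, and `φ` produces no other value from `n` and an
initial segment of `p`. -/
def ComputableMap (F : (ℕ → ℕ) →. (ℕ → ℕ)) : Prop :=
  ∃ φ : List ℕ × ℕ →. ℕ, Partrec φ ∧ ∀ p r, r ∈ F p → ∀ n,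
    (∃ k, r n ∈ φ (ini p k, n)) ∧ ∀ k m, m ∈ φ (ini p k, n) → m = r n

/-- The pair `⟨p, q⟩`, by interleaving. -/
def pairing (p q : ℕ → ℕ) : ℕ → ℕ := fun n => if n % 2 = 0 then p (n / 2) else q (n / 2)

/-- The first component of a pair. -/
def left (r : ℕ → ℕ) : ℕ → ℕ := fun n => r (2 * n)

/-- The second component of a pair. -/
def right (r : ℕ → ℕ) : ℕ → ℕ := fun n => r (2 * n + 1)

/-- `G` is a realizer of `f`: it is a partial map on Baire space that is defined on all of the domain
of `f` and whose values there are solutions. -/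
def Realizes (G : (ℕ → ℕ) →. (ℕ → ℕ)) (f : Problem) : Prop :=
  ∀ p ∈ f.dom, ∃ r ∈ G p, r ∈ f.sol p

/-- Weihrauch reducibility `f ≤_W g`: there are computable partial maps `H`, `K` on Baire space such
that for every realizer `G` of `g`, the map `p ↦ H⟨p, G(K(p))⟩` is a realizer of `f`. -/
def WeihrauchLE (f g : Problem) : Prop :=
  ∃ H K : (ℕ → ℕ) →. (ℕ → ℕ), ComputableMap H ∧ ComputableMap K ∧
    ∀ G : (ℕ → ℕ) →. (ℕ → ℕ), Realizes G g →
      Realizes (fun p => (K p).bind fun x => (G x).bind fun y => H (pairing p y)) f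

/-- The product `f × g`. -/
def Problem.prod (f g : Problem) : Problem where
  dom := {r | left r ∈ f.dom ∧ right r ∈ g.dom}
  sol r := {s | left s ∈ f.sol (left r) ∧ right s ∈ g.sol (right r)}
  dom_subset := by
    rintro r ⟨h1, h2⟩ n
    obtain ⟨k, hk⟩ := Nat.even_or_odd' n
    rcases hk with rfl | rfl
    · exact f.dom_subset h1 k
    · exact g.dom_subset h2 k
  sol_subset := by
    rintro r ⟨h1, h2⟩ s ⟨h3, h4⟩ n
    obtain ⟨k, hk⟩ := Nat.even_or_odd' n
    rcases hk with rfl | rfl
    · exact f.sol_subset _ h1 h3 k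
    · exact g.sol_subset _ h2 h4 k

/-- `NON`: the solutions of `p` are the `q` in Cantor space that are not computable relative to
`p`. -/
def NON : Problem where
  dom := Cantor
  sol p := {q | q ∈ Cantor ∧
    ¬ Nat.RecursiveIn {fun n => Part.some (p n)} (fun n => Part.some (q n))}
  dom_subset := fun _ h => h
  sol_subset := fun _ _ _ h => h.1

/-- `LLPO`: an instance is a `p` in Cantor space with at most one `n` such that `p n = 1`; a solution
is (a name `r` of) an `i ∈ {0, 1}`, `i = r 0`, with `p (2 n + i) = 0` for all `n`. -/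
def LLPO : Problem where
  dom := {p | p ∈ Cantor ∧ ∀ m n, p m = 1 → p n = 1 → m = n}
  sol p := {r | r ∈ Cantor ∧ ∀ n, p (2 * n + r 0) = 0}
  dom_subset := fun _ h => h.1
  sol_subset := fun _ _ _ h => h.1

/-- `RT²₂`: an instance `c` gives the colouring of `[ℕ]²` in which `{x < y}` has colour
`c (Nat.pair x y)`; a solution is (the characteristic function of) an infinite homogeneous set. -/
def RT22 : Problem where
  dom := Cantor
  sol c := {h | h ∈ Cantor ∧ {x | h x = 1}.Infinite ∧
    ∃ i, ∀ x y, x < y → h x = 1 → h y = 1 → c (Nat.pair x y) = i}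
  dom_subset := fun _ h => h
  sol_subset := fun _ _ _ h => h.1

/-! ## Proof -/

open Pool.Agent.Helper22

theorem left_pairing (p q : ℕ → ℕ) : left (pairing p q) = p := by
  funext n
  simp [left, pairing]

theorem right_pairing (p q : ℕ → ℕ) : right (pairing p q) = q := by
  funext n
  have h1 : (2 * n + 1) % 2 = 1 := by omega
  have h2 : (2 * n + 1) / 2 = n := by omega
  simp [right, pairing, h1, h2]

/-- the forward map -/
def colour (r : ℕ → ℕ) : ℕ → ℕ :=
  fun n => NonLlpo.C r ((Nat.unpair n).1 + 1) (Nat.unpair n).1 (Nat.unpair n).2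

theorem colour_cantor (r : ℕ → ℕ) : colour r ∈ Cantor := by
  intro n
  have := NonLlpo.kap_lt (Functional.ini r (2 * ((Nat.unpair n).2 + 2))) ((Nat.unpair n).1 + 1)
    (Nat.unpair n).1 (Nat.unpair n).2
  change NonLlpo.kap _ _ _ _ = 0 ∨ NonLlpo.kap _ _ _ _ = 1
  omega

theorem computable_colour : ComputableMap (fun r => Part.some (colour r)) := by
  refine ⟨fun a => ((if a.1.length = 2 * ((Nat.unpair a.2).2 + 2) then
    some (NonLlpo.kap a.1 ((Nat.unpair a.2).1 + 1) (Nat.unpair a.2).1 (Nat.unpair a.2).2) else none :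
      Option ℕ) : Part ℕ), ?_, ?_⟩
  · apply Computable.ofOption
    apply Primrec.to_comp
    have hx : Primrec fun a : List ℕ × ℕ => (Nat.unpair a.2).1 :=
      Primrec.fst.comp (Primrec.unpair.comp Primrec.snd)
    have hy : Primrec fun a : List ℕ × ℕ => (Nat.unpair a.2).2 :=
      Primrec.snd.comp (Primrec.unpair.comp Primrec.snd)
    refine Primrec.ite ?_ (Primrec.option_some.comp ?_) (Primrec.const none)
    · exact Primrec.eq.comp (Primrec.list_length.comp Primrec.fst)
        (Primrec.nat_mul.comp (Primrec.const 2) (Primrec.nat_add.comp hy (Primrec.const 2)))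
    · exact NonLlpo.primrec_kap.comp (g := fun a : List ℕ × ℕ =>
        (a.1, (Nat.unpair a.2).1 + 1, (Nat.unpair a.2).1, (Nat.unpair a.2).2))
        (Primrec.pair Primrec.fst (Primrec.pair (Primrec.succ.comp hx) (Primrec.pair hx hy)))
  · intro p r hr n
    rw [Part.mem_some_iff] at hr
    subst hr
    constructor
    · refine ⟨2 * ((Nat.unpair n).2 + 2), ?_⟩
      rw [Part.mem_ofOption, Option.mem_def]
      have : (ini p (2 * ((Nat.unpair n).2 + 2))).length = 2 * ((Nat.unpair n).2 + 2) :=
        Functional.length_ini _ _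
      simp only
      rw [if_pos this]
      rfl
    · intro k m hm
      rw [Part.mem_ofOption, Option.mem_def] at hm
      simp only at hm
      have hl : (ini p k).length = k := Functional.length_ini _ _
      split at hm
      · rename_i hk
        rw [hl] at hk
        subst hk
        exact (Option.some.inj hm).symm
      · simp at hm

/-- two elements of the homogeneous set, coded by `t` -/
def Good (h : ℕ → ℕ) (t : ℕ) : Prop :=
  (Nat.unpair t).1 < (Nat.unpair t).2 ∧ h (Nat.unpair t).1 = 1 ∧ h (Nat.unpair t).2 = 1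

/-- the answer computed from `t` -/
def ans (r : ℕ → ℕ) (t : ℕ) : ℕ := NonLlpo.C r 0 (Nat.unpair t).1 (Nat.unpair t).2

/-- the backward map -/
noncomputable def back : (ℕ → ℕ) →. (ℕ → ℕ) := fun w =>
  ⟨∃ a, (∃ t, Good (right w) t) ∧ ∀ t, Good (right w) t → ans (left w) t = a,
    fun h => pairing (right w) (fun _ => h.choose)⟩

/-- the good pairs, as recognised from a finite initial segment -/
def GoodL (τ : List ℕ) (t : ℕ) : Prop :=
  (Nat.unpair t).1 < (Nat.unpair t).2 ∧ τ.getD (2 * (Nat.unpair t).1 + 1) 0 = 1 ∧
    τ.getD (2 * (Nat.unpair t).2 + 1) 0 = 1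

instance (τ : List ℕ) (t : ℕ) : Decidable (GoodL τ t) := by unfold GoodL; infer_instance

theorem computable_back : ComputableMap back := by
  refine ⟨fun a => ((if a.2 % 2 = 0 then
      (if a.1.length = a.2 + 2 then some (a.1.getD (a.2 + 1) 0) else none)
    else (if a.1.length = 4 * ((a.1.length / 4 - 2) + 2) ∧ GoodL a.1 (a.1.length / 4 - 2) then
      some (NonLlpo.kap (NonLlpo.pre a.1 (2 * ((Nat.unpair (a.1.length / 4 - 2)).2 + 2))) 0
        (Nat.unpair (a.1.length / 4 - 2)).1 (Nat.unpair (a.1.length / 4 - 2)).2) else none) :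
      Option ℕ) : Part ℕ), ?_, ?_⟩
  · apply Computable.ofOption
    apply Primrec.to_comp
    have hlen : Primrec fun a : List ℕ × ℕ => a.1.length := Primrec.list_length.comp Primrec.fst
    have ht : Primrec fun a : List ℕ × ℕ => a.1.length / 4 - 2 :=
      Primrec.nat_sub.comp (Primrec.nat_div.comp hlen (Primrec.const 4)) (Primrec.const 2)
    have hx : Primrec fun a : List ℕ × ℕ => (Nat.unpair (a.1.length / 4 - 2)).1 :=
      Primrec.fst.comp (Primrec.unpair.comp ht)
    have hy : Primrec fun a : List ℕ × ℕ => (Nat.unpair (a.1.length / 4 - 2)).2 :=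
      Primrec.snd.comp (Primrec.unpair.comp ht)
    have hg : ∀ {f : List ℕ × ℕ → ℕ}, Primrec f →
        Primrec fun a : List ℕ × ℕ => a.1.getD (2 * f a + 1) 0 := by
      intro f hf
      exact (Primrec.list_getD 0).comp Primrec.fst
        (Primrec.succ.comp (Primrec.nat_mul.comp (Primrec.const 2) hf))
    refine Primrec.ite ?_ (Primrec.ite ?_ (Primrec.option_some.comp ?_) (Primrec.const none))
      (Primrec.ite ?_ (Primrec.option_some.comp ?_) (Primrec.const none))
    · exact Primrec.eq.comp (Primrec.nat_mod.comp Primrec.snd (Primrec.const 2)) (Primrec.const 0)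
    · exact Primrec.eq.comp hlen (Primrec.nat_add.comp Primrec.snd (Primrec.const 2))
    · exact (Primrec.list_getD 0).comp Primrec.fst (Primrec.succ.comp Primrec.snd)
    · unfold GoodL
      refine PrimrecPred.and ?_ (PrimrecPred.and ?_ (PrimrecPred.and ?_ ?_))
      · exact Primrec.eq.comp hlen
          (Primrec.nat_mul.comp (Primrec.const 4) (Primrec.nat_add.comp ht (Primrec.const 2)))
      · exact Primrec.nat_lt.comp hx hy
      · exact Primrec.eq.comp (hg hx) (Primrec.const 1)
      · exact Primrec.eq.comp (hg hy) (Primrec.const 1)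
    · refine NonLlpo.primrec_kap.comp (g := fun a : List ℕ × ℕ =>
        (NonLlpo.pre a.1 (2 * ((Nat.unpair (a.1.length / 4 - 2)).2 + 2)), 0,
          (Nat.unpair (a.1.length / 4 - 2)).1, (Nat.unpair (a.1.length / 4 - 2)).2)) ?_
      refine Primrec.pair (NonLlpo.primrec_pre.comp Primrec.fst ?_)
        (Primrec.pair (Primrec.const 0) (Primrec.pair hx hy))
      exact Primrec.nat_mul.comp (Primrec.const 2) (Primrec.nat_add.comp hy (Primrec.const 2))
  · rintro w s ⟨hdom, rfl⟩ n
    obtain ⟨⟨t0, ht0⟩, hall⟩ := hdom.choose_spec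
    have hlen : ∀ k, (ini w k).length = k := fun k => Functional.length_ini _ _
    have hgetD : ∀ k i, i < k → (ini w k).getD i 0 = w i := fun k i hi => Functional.getD_ini w k i hi
    change (∃ k, pairing (right w) (fun _ => hdom.choose) n ∈ _) ∧ ∀ k m, m ∈ _ →
      m = pairing (right w) (fun _ => hdom.choose) n
    rcases Nat.mod_two_eq_zero_or_one n with hn | hn
    · -- even positions
      have hpair : pairing (right w) (fun _ => hdom.choose) n = w (n + 1) := by
        unfold pairing right
        rw [if_pos hn]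
        congr 1
        omega
      rw [hpair]
      constructor
      · refine ⟨n + 2, ?_⟩
        rw [Part.mem_ofOption, Option.mem_def]
        simp only
        rw [if_pos hn, if_pos (hlen _), hgetD _ _ (by omega)]
      · intro k m hm
        rw [Part.mem_ofOption, Option.mem_def] at hm
        simp only at hm
        rw [if_pos hn] at hm
        split at hm
        · rename_i hk
          rw [hlen] at hk
          subst hk
          rw [hgetD _ _ (by omega)] at hm
          exact (Option.some.inj hm).symm
        · simp at hm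
    · -- odd positions
      have hpair : pairing (right w) (fun _ => hdom.choose) n = hdom.choose := by
        unfold pairing
        rw [if_neg (by omega)]
      rw [hpair]
      have hpre : ∀ t, NonLlpo.pre (ini w (4 * (t + 2))) (2 * ((Nat.unpair t).2 + 2)) =
          Functional.ini (left w) (2 * ((Nat.unpair t).2 + 2)) := by
        intro t
        have h1 : (Nat.unpair t).2 ≤ t := Nat.unpair_right_le t
        exact NonLlpo.pre_ini w (4 * (t + 2)) _ (by omega)
      have hgood : ∀ t, GoodL (ini w (4 * (t + 2))) t ↔ Good (right w) t := by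
        intro t
        have h1 : (Nat.unpair t).2 ≤ t := Nat.unpair_right_le t
        have h2 : (Nat.unpair t).1 ≤ t := Nat.unpair_left_le t
        unfold GoodL Good
        rw [hgetD _ _ (by omega), hgetD _ _ (by omega)]
        rfl
      constructor
      · refine ⟨4 * (t0 + 2), ?_⟩
        rw [Part.mem_ofOption, Option.mem_def]
        simp only
        rw [if_neg (by omega)]
        have h1 : (ini w (4 * (t0 + 2))).length / 4 - 2 = t0 := by rw [hlen]; omega
        rw [h1, if_pos ⟨hlen _, (hgood t0).2 ht0⟩, hpre]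
        exact congrArg some (hall t0 ht0)
      · intro k m hm
        rw [Part.mem_ofOption, Option.mem_def] at hm
        simp only at hm
        rw [if_neg (by omega)] at hm
        split at hm
        · rename_i hk
          obtain ⟨hk1, hk2⟩ := hk
          generalize ht : (ini w k).length / 4 - 2 = t at hk1 hk2 hm
          rw [hlen] at hk1
          subst hk1
          rw [hpre] at hm
          rw [← hall t ((hgood t).1 hk2)]
          exact (Option.some.inj hm).symm
        · simp at hm

/-- **`NON × LLPO ≤_W RT²₂`.** -/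
theorem result : WeihrauchLE (NON.prod LLPO) RT22 := by
  refine ⟨back, fun r => Part.some (colour r), computable_back, computable_colour, ?_⟩
  intro G hG r hr
  obtain ⟨hp, hq, hq1⟩ := hr
  obtain ⟨h, hGh, hh01, hinf, i, hi⟩ := hG (colour r) (colour_cantor r)
  have H : NonLlpo.Hom r h i := by
    refine ⟨hinf, fun x y hxy hx hy => ?_⟩
    have := hi x y hxy hx hy
    unfold colour at this
    rw [Nat.unpair_pair] at this
    exact this
  obtain ⟨a, ha, ha1, ha2⟩ := NonLlpo.answer H hq hq1
  have hdom : ∃ a, (∃ t, Good (right (pairing r h)) t) ∧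
      ∀ t, Good (right (pairing r h)) t → ans (left (pairing r h)) t = a := by
    rw [left_pairing, right_pairing]
    refine ⟨a, ?_, ?_⟩
    · obtain ⟨x, hx, _⟩ := hinf.exists_gt 0
      obtain ⟨y, hy, hxy⟩ := hinf.exists_gt x
      refine ⟨Nat.pair x y, ?_⟩
      unfold Good
      rw [Nat.unpair_pair]
      exact ⟨hxy, hx, hy⟩
    · rintro t ⟨h1, h2, h3⟩
      exact ha2 _ _ h1 h2 h3
  have hchoose : hdom.choose = a := by
    obtain ⟨⟨t0, ht0⟩, hall⟩ := hdom.choose_spec
    rw [← hall t0 ht0]
    rw [right_pairing] at ht0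
    rw [left_pairing]
    exact ha2 _ _ ht0.1 ht0.2.1 ht0.2.2
  refine ⟨pairing (right (pairing r h)) (fun _ => hdom.choose), ?_, ?_⟩
  · rw [Part.mem_bind_iff]
    refine ⟨colour r, Part.mem_some _, ?_⟩
    rw [Part.mem_bind_iff]
    exact ⟨h, hGh, ⟨hdom, rfl⟩⟩
  · rw [hchoose, right_pairing]
    refine ⟨?_, ?_⟩
    · rw [left_pairing]
      refine ⟨hh01, ?_⟩
      exact NonLlpo.not_recursiveIn H hq1
    · rw [right_pairing]
      refine ⟨fun n => by change a = 0 ∨ a = 1; omega, fun n => ?_⟩
      exact ha1 n

end Pool.Agent.Results.MP_743c94_lc.NonLlpoBelowRT22
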